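import Pool.Agent.R690.Kos.Fld

set_option autoImplicit false

/-!
# Monomial ideals whose powers become field-dependent exactly from a given power

Let `nf9` be nine of the ten minimal nonfaces of the six-vertex triangulation of the real
projective plane (all but `{0, 1, 2}`), `m = z_0 ⋯ z_5`. For `h ≥ 1` the ideal `I_h` of
`k[z_0, …, z_5, x]` is generated by `x^(2h)`, `m^4 x^(2h-2)`, the nine monomials
`m^2 z_T x^(2h-1)` with `T` in `nf9`, and `m^(2(2h-1)) z_0 z_1 z_2 x`. Its powers `I_h^ℓ` have
field-independent Betti numbers for `ℓ < h` and field-dependent Betti numbers for `ℓ ≥ h`.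
-/

namespace Pool.Agent.Results.MP_8a71fe_al.DependentFromGivenPower

open Pool.Agent.R690.Kos

/-- For every `h ≥ 1` there is a monomial ideal (generated by the monomials with exponent vectors
in a finite set `G`) such that for each `ℓ < h` the Betti numbers of the `ℓ`-th power (total,
graded or multigraded: the dimension of the part of `Tor_i` with multidegrees in any set `A`) are
the same over all fields, while for each `ℓ ≥ h` the third Betti number of the `ℓ`-th power over
the rationals is smaller than over the field with two elements. -/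
theorem result : ∀ h : ℕ, 1 ≤ h → ∃ (n : ℕ) (G : Set (Fin n →₀ ℕ)), G.Finite ∧
    (∀ ℓ : ℕ, ℓ < h → ∀ (K K' : Type*) [Field K] [Field K'] (i : ℕ) (A : Set (Fin n →₀ ℕ)),
      bettiIn (monIdeal K G ^ ℓ) i A = bettiIn (monIdeal K' G ^ ℓ) i A) ∧
    (∀ ℓ : ℕ, h ≤ ℓ → betti (monIdeal ℚ G ^ ℓ) 3 < betti (monIdeal (ZMod 2) G ^ ℓ) 3) := by
  intro h hh
  obtain ⟨q, rfl⟩ : ∃ q, h = q + 1 := ⟨h - 1, by omega⟩
  refine ⟨7, Gq q, Gq_finite q, ?_, ?_⟩
  · intro ℓ hℓ K K' _ _ i A
    exact low_pow K K' q ℓ (by omega) i A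
  · intro ℓ hℓ
    exact high_pow q ℓ hℓ

end Pool.Agent.Results.MP_8a71fe_al.DependentFromGivenPower
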